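import Pool.Agent.L0h82.GT.Stm

set_option autoImplicit false

namespace Pool.Agent.L0h82.GT

/-- Bool form of K0 for one entry. -/
def k0b (e : ℕ × ℕ) : Bool :=
  okE e && ((List.range 6).all fun i => decide (dg e.1 i < 6)) &&
  ((List.range 6).all fun i => (List.range 5).all fun k =>
    decide (sg e.1 i k < 5) && decide (sk (dg e.1 i) (sg e.1 i k) = dg e.1 (sk i k))) &&
  ((List.range 6).all fun i => (List.range 5).all fun k => (List.range 5).all fun l =>
    (!(decide (sg e.1 i k = sg e.1 i l))) || decide (k = l))

theorem k0_0_0 : (((HL.getD 0 []).drop 0).take 9).all k0b = true := by decide +kernel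

theorem k0_0_1 : (((HL.getD 0 []).drop 9).take 9).all k0b = true := by decide +kernel

theorem k0_0_2 : (((HL.getD 0 []).drop 18).take 9).all k0b = true := by decide +kernel

theorem k0_0_3 : (((HL.getD 0 []).drop 27).take 9).all k0b = true := by decide +kernel

theorem k0_1_0 : (((HL.getD 1 []).drop 0).take 9).all k0b = true := by decide +kernel

theorem k0_1_1 : (((HL.getD 1 []).drop 9).take 9).all k0b = true := by decide +kernel

theorem k0_1_2 : (((HL.getD 1 []).drop 18).take 9).all k0b = true := by decide +kernel

theorem k0_1_3 : (((HL.getD 1 []).drop 27).take 9).all k0b = true := by decide +kernel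

theorem k0_2_0 : (((HL.getD 2 []).drop 0).take 9).all k0b = true := by decide +kernel

theorem k0_2_1 : (((HL.getD 2 []).drop 9).take 9).all k0b = true := by decide +kernel

theorem k0_2_2 : (((HL.getD 2 []).drop 18).take 9).all k0b = true := by decide +kernel

theorem k0_2_3 : (((HL.getD 2 []).drop 27).take 9).all k0b = true := by decide +kernel

theorem k0_3_0 : (((HL.getD 3 []).drop 0).take 9).all k0b = true := by decide +kernel

theorem k0_3_1 : (((HL.getD 3 []).drop 9).take 9).all k0b = true := by decide +kernel

theorem k0_3_2 : (((HL.getD 3 []).drop 18).take 9).all k0b = true := by decide +kernel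

theorem k0_3_3 : (((HL.getD 3 []).drop 27).take 9).all k0b = true := by decide +kernel

theorem k0_4_0 : (((HL.getD 4 []).drop 0).take 9).all k0b = true := by decide +kernel

theorem k0_4_1 : (((HL.getD 4 []).drop 9).take 9).all k0b = true := by decide +kernel

theorem k0_4_2 : (((HL.getD 4 []).drop 18).take 9).all k0b = true := by decide +kernel

theorem k0_4_3 : (((HL.getD 4 []).drop 27).take 9).all k0b = true := by decide +kernel

theorem k0_5_0 : (((HL.getD 5 []).drop 0).take 9).all k0b = true := by decide +kernel

theorem k0_5_1 : (((HL.getD 5 []).drop 9).take 9).all k0b = true := by decide +kernel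

theorem k0_5_2 : (((HL.getD 5 []).drop 18).take 9).all k0b = true := by decide +kernel

theorem k0_5_3 : (((HL.getD 5 []).drop 27).take 9).all k0b = true := by decide +kernel

theorem k0_6_0 : (((HL.getD 6 []).drop 0).take 9).all k0b = true := by decide +kernel

theorem k0_6_1 : (((HL.getD 6 []).drop 9).take 9).all k0b = true := by decide +kernel

theorem k0_6_2 : (((HL.getD 6 []).drop 18).take 9).all k0b = true := by decide +kernel

theorem k0_6_3 : (((HL.getD 6 []).drop 27).take 9).all k0b = true := by decide +kernel

theorem k0_7_0 : (((HL.getD 7 []).drop 0).take 9).all k0b = true := by decide +kernel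

theorem k0_7_1 : (((HL.getD 7 []).drop 9).take 9).all k0b = true := by decide +kernel

theorem k0_7_2 : (((HL.getD 7 []).drop 18).take 9).all k0b = true := by decide +kernel

theorem k0_7_3 : (((HL.getD 7 []).drop 27).take 9).all k0b = true := by decide +kernel

theorem k0_8_0 : (((HL.getD 8 []).drop 0).take 9).all k0b = true := by decide +kernel

theorem k0_8_1 : (((HL.getD 8 []).drop 9).take 9).all k0b = true := by decide +kernel

theorem k0_8_2 : (((HL.getD 8 []).drop 18).take 9).all k0b = true := by decide +kernel

theorem k0_8_3 : (((HL.getD 8 []).drop 27).take 9).all k0b = true := by decide +kernel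

theorem k0_9_0 : (((HL.getD 9 []).drop 0).take 9).all k0b = true := by decide +kernel

theorem k0_9_1 : (((HL.getD 9 []).drop 9).take 9).all k0b = true := by decide +kernel

theorem k0_9_2 : (((HL.getD 9 []).drop 18).take 9).all k0b = true := by decide +kernel

theorem k0_9_3 : (((HL.getD 9 []).drop 27).take 9).all k0b = true := by decide +kernel

theorem k0_f : HF.all k0b = true := by decide +kernel

theorem all_take_drop (l : List (ℕ × ℕ)) (h1 : (l.drop 0 |>.take 9).all k0b = true)
    (h2 : (l.drop 9 |>.take 9).all k0b = true) (h3 : (l.drop 18 |>.take 9).all k0b = true)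
    (h4 : (l.drop 27 |>.take 9).all k0b = true) (hl : l.length = 36) : l.all k0b = true := by
  have e : l = (l.drop 0 |>.take 9) ++ ((l.drop 9 |>.take 9) ++ ((l.drop 18 |>.take 9) ++ (l.drop 27 |>.take 9))) := by
    have e4 : l.drop 27 = (l.drop 27).take 9 := by
      rw [List.take_of_length_le]; simp [hl]
    have e3 : l.drop 18 = (l.drop 18).take 9 ++ l.drop 27 := by
      rw [show l.drop 27 = (l.drop 18).drop 9 by rw [List.drop_drop], List.take_append_drop]
    have e2 : l.drop 9 = (l.drop 9).take 9 ++ l.drop 18 := by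
      rw [show l.drop 18 = (l.drop 9).drop 9 by rw [List.drop_drop], List.take_append_drop]
    have e1 : l.drop 0 = (l.drop 0).take 9 ++ l.drop 9 := by
      rw [show l.drop 9 = (l.drop 0).drop 9 by rw [List.drop_drop], List.take_append_drop]
    rw [← e4, ← e3, ← e2, ← e1, List.drop_zero]
  rw [e, List.all_append, List.all_append, List.all_append, h1, h2, h3, h4]
  rfl

theorem k0_0 : (HL.getD 0 []).all k0b = true :=
  all_take_drop _ k0_0_0 k0_0_1 k0_0_2 k0_0_3 (by decide +kernel)

theorem k0_1 : (HL.getD 1 []).all k0b = true :=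
  all_take_drop _ k0_1_0 k0_1_1 k0_1_2 k0_1_3 (by decide +kernel)

theorem k0_2 : (HL.getD 2 []).all k0b = true :=
  all_take_drop _ k0_2_0 k0_2_1 k0_2_2 k0_2_3 (by decide +kernel)

theorem k0_3 : (HL.getD 3 []).all k0b = true :=
  all_take_drop _ k0_3_0 k0_3_1 k0_3_2 k0_3_3 (by decide +kernel)

theorem k0_4 : (HL.getD 4 []).all k0b = true :=
  all_take_drop _ k0_4_0 k0_4_1 k0_4_2 k0_4_3 (by decide +kernel)

theorem k0_5 : (HL.getD 5 []).all k0b = true :=
  all_take_drop _ k0_5_0 k0_5_1 k0_5_2 k0_5_3 (by decide +kernel)

theorem k0_6 : (HL.getD 6 []).all k0b = true :=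
  all_take_drop _ k0_6_0 k0_6_1 k0_6_2 k0_6_3 (by decide +kernel)

theorem k0_7 : (HL.getD 7 []).all k0b = true :=
  all_take_drop _ k0_7_0 k0_7_1 k0_7_2 k0_7_3 (by decide +kernel)

theorem k0_8 : (HL.getD 8 []).all k0b = true :=
  all_take_drop _ k0_8_0 k0_8_1 k0_8_2 k0_8_3 (by decide +kernel)

theorem k0_9 : (HL.getD 9 []).all k0b = true :=
  all_take_drop _ k0_9_0 k0_9_1 k0_9_2 k0_9_3 (by decide +kernel)

theorem k0_check : (HL.flatten ++ HF).all k0b = true := by
  have e : HL = [HL.getD 0 [], HL.getD 1 [], HL.getD 2 [], HL.getD 3 [], HL.getD 4 [], HL.getD 5 [],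
      HL.getD 6 [], HL.getD 7 [], HL.getD 8 [], HL.getD 9 []] := rfl
  rw [List.all_append, k0_f, e]
  simp only [List.flatten_cons, List.flatten_nil, List.append_nil, List.all_append, k0_0, k0_1, k0_2,
    k0_3, k0_4, k0_5, k0_6, k0_7, k0_8, k0_9, Bool.and_self]

theorem t_K0 : K0 := by
  intro e he
  have h := List.all_eq_true.mp k0_check e he
  simp only [k0b, Bool.and_eq_true] at h
  obtain ⟨⟨⟨h1, h2⟩, h3⟩, h4⟩ := h
  refine ⟨h1, ?_, ?_, ?_⟩
  · intro i hi
    have := List.all_eq_true.mp h2 i (List.mem_range.mpr hi)
    exact of_decide_eq_true this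
  · intro i hi k hk
    have := List.all_eq_true.mp (List.all_eq_true.mp h3 i (List.mem_range.mpr hi)) k
      (List.mem_range.mpr hk)
    simp only [Bool.and_eq_true, decide_eq_true_eq] at this
    exact this
  · intro i hi k hk l hl hkl
    have := List.all_eq_true.mp (List.all_eq_true.mp (List.all_eq_true.mp h4 i
      (List.mem_range.mpr hi)) k (List.mem_range.mpr hk)) l (List.mem_range.mpr hl)
    simp only [Bool.or_eq_true, Bool.not_eq_true', decide_eq_false_iff_not, decide_eq_true_eq] at this
    rcases this with h | h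
    · exact absurd hkl h
    · exact h

end Pool.Agent.L0h82.GT
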