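import Pool.Agent.L0h82.GT.Top
import Pool.Agent.L0h82.GT.K0
import Pool.Agent.L0h65.GT.HOM
import Pool.Agent.L0h91.GT.SWA
import Pool.Agent.L0h81.GT.SIX
import Pool.Agent.L0h82.GT.K1
import Pool.Agent.L0h29.GT.K2
import Pool.Agent.L0h39.GT.K3
import Pool.Agent.L0h4.GT.JOR
import Pool.Agent.L0h2.GT.FIN
import Pool.Agent.L0h36.GT.TOT
import Pool.Agent.L0h68.GT.INV

set_option autoImplicit false

namespace Pool.Agent.L0h82.GT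

universe u

theorem t_JOR : S_JOR.{u} := Pool.Agent.L0h4.GT.t_JOR

theorem t_SIX : S_SIX.{u} :=
  Pool.Agent.L0h81.GT.t_SIX t_K0 Pool.Agent.L0h68.GT.t_INV Pool.Agent.L0h91.GT.t_SWA

theorem t_FIN : S_FIN.{u} :=
  Pool.Agent.L0h2.GT.t_FIN Pool.Agent.L0h82.GT.K1s.t_K1 Pool.Agent.L0h29.GT.t_K2
    Pool.Agent.L0h39.GT.K3.t_K3 Pool.Agent.L0h68.GT.t_INV Pool.Agent.L0h36.GT.t_TOT
    Pool.Agent.L0h4.GT.t_JOR Pool.Agent.L0h65.GT.t_HOM t_SIX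

end Pool.Agent.L0h82.GT
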