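import Mathlib
import Pool.Agent.L0h82.GT.Stm

/-! # Board GT: from the modules to the theorem -/

set_option autoImplicit false

namespace Pool.Agent.L0h82.GT

universe u

/-- from five different points with `C3` for all numberings to the alternating group. -/
theorem alt_of_C3 {X : Type u} [DecidableEq X] (G : Subgroup (Equiv.Perm X)) (Y : Finset X)
    (h : ∀ a b c d e : X, a ∈ Y → b ∈ Y → c ∈ Y → d ∈ Y → e ∈ Y → [a, b, c, d, e].Nodup →
      C3 G a b c d e) (hY : Y.card = 5) (σ : Equiv.Perm Y) (hσ : σ ∈ alternatingGroup Y) :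
    ∃ g ∈ G, ∀ y : Y, g y = σ y := by
  classical
  let H : Subgroup (Equiv.Perm Y) :=
    { carrier := {τ | ∃ g ∈ G, ∀ y : Y, g y = τ y}
      one_mem' := ⟨1, G.one_mem, fun y => rfl⟩
      mul_mem' := by
        rintro τ τ' ⟨g, hg, h1⟩ ⟨g', hg', h2⟩
        refine ⟨g * g', G.mul_mem hg hg', fun y => ?_⟩
        rw [Equiv.Perm.mul_apply, h2, h1, Equiv.Perm.mul_apply]
      inv_mem' := by
        rintro τ ⟨g, hg, h1⟩
        refine ⟨g⁻¹, G.inv_mem hg, fun y => ?_⟩
        rw [Equiv.Perm.inv_eq_iff_eq, h1]
        simp }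
  have key : alternatingGroup Y ≤ H := by
    rw [← Equiv.Perm.closure_three_cycles_eq_alternating, Subgroup.closure_le]
    intro τ hτ
    have hτ : τ.IsThreeCycle := hτ
    -- the support has three elements, the complement two
    have h3 : τ.support.card = 3 := hτ.card_support
    have hc : (τ.support)ᶜ.card = 2 := by
      rw [Finset.card_compl, h3]
      simp [hY]
    obtain ⟨d, e, hde, hdec⟩ := Finset.card_eq_two.mp hc
    obtain ⟨a, ha⟩ : τ.support.Nonempty := by
      rw [← Finset.card_pos, h3]; norm_num
    have hdn : τ d = d := by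
      have : d ∈ (τ.support)ᶜ := by rw [hdec]; simp
      simpa using this
    have hen : τ e = e := by
      have : e ∈ (τ.support)ᶜ := by rw [hdec]; simp
      simpa using this
    have hfull : τ.support = {a, τ a, τ (τ a)} := by
      symm
      apply Finset.eq_of_subset_of_card_le
      · intro x hx
        simp only [Finset.mem_insert, Finset.mem_singleton] at hx
        rcases hx with rfl | rfl | rfl
        · exact ha
        · exact Equiv.Perm.apply_mem_support.mpr ha
        · exact Equiv.Perm.apply_mem_support.mpr (Equiv.Perm.apply_mem_support.mpr ha)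
      · have h1 : τ a ≠ a := Equiv.Perm.mem_support.mp ha
        have h2 : τ (τ a) ≠ τ a := fun h => h1 (τ.injective h)
        have h4 : τ (τ a) ≠ a := by
          intro h4
          have h5 : (τ ^ 3) a = a := by
            have : τ ^ 3 = 1 := by
              rw [← hτ.orderOf]; exact pow_orderOf_eq_one τ
            rw [this]; rfl
          have h6 : (τ ^ 3) a = τ (τ (τ a)) := rfl
          rw [h6, h4] at h5
          exact h1 h5
        rw [h3, Finset.card_eq_three.mpr ⟨a, τ a, τ (τ a), h1.symm, h4.symm, h2.symm, rfl⟩]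
    have h1 : τ a ≠ a := Equiv.Perm.mem_support.mp ha
    have h2 : τ (τ a) ≠ τ a := fun h => h1 (τ.injective h)
    have h5 : τ (τ (τ a)) = a := by
      have h5 : (τ ^ 3) a = a := by
        have : τ ^ 3 = 1 := by
          rw [← hτ.orderOf]; exact pow_orderOf_eq_one τ
        rw [this]; rfl
      exact h5
    have h4 : τ (τ a) ≠ a := by
      intro h4
      rw [h4] at h5
      exact h1 h5
    have hda : d ∉ τ.support := by
      simpa using hdn
    have hea : e ∉ τ.support := by
      simpa using hen
    rw [hfull] at hda hea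
    simp only [Finset.mem_insert, Finset.mem_singleton, not_or] at hda hea
    obtain ⟨g, hg, g1, g2, g3, g4, g5⟩ := h a (τ a : Y) (τ (τ a) : Y) d e a.2 (τ a).2 (τ (τ a)).2 d.2 e.2 (by
      simp only [List.nodup_cons, List.mem_cons, List.not_mem_nil, or_false, not_or,
        List.nodup_nil, and_true, not_false_eq_true, ← ne_eq, Subtype.coe_injective.ne_iff]
      exact ⟨⟨h1.symm, h4.symm, fun h => hda.1 h.symm, fun h => hea.1 h.symm⟩,
        ⟨h2.symm, fun h => hda.2.1 h.symm, fun h => hea.2.1 h.symm⟩,
        ⟨fun h => hda.2.2 h.symm, fun h => hea.2.2 h.symm⟩, hde⟩)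
    refine ⟨g, hg, fun y => ?_⟩
    by_cases hy : y ∈ τ.support
    · rw [hfull] at hy
      simp only [Finset.mem_insert, Finset.mem_singleton] at hy
      rcases hy with rfl | rfl | rfl
      · exact g1
      · exact g2
      · rw [g3, h5]
    · have hy' : y ∈ (τ.support)ᶜ := by simpa using hy
      rw [hdec] at hy'
      simp only [Finset.mem_insert, Finset.mem_singleton] at hy'
      rcases hy' with rfl | rfl
      · rw [g4, hdn]
      · rw [g5, hen]
  exact key hσ

/-- the theorem from JOR and FIN. -/
theorem top (hJ : S_JOR.{u}) (hF : S_FIN.{u}) {X : Type u} [DecidableEq X] (G : Subgroup (Equiv.Perm X))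
    (hG : Gen G) (h7 : ∃ s : Finset X, s.card = 7) (Y : Finset X) (hY : Y.card = 5)
    (σ : Equiv.Perm Y) (hσ : σ ∈ alternatingGroup Y) : ∃ g ∈ G, ∀ y : Y, g y = σ y := by
  refine alt_of_C3 G Y ?_ hY σ hσ
  intro a b c d e ha hb hc hd he hn
  let w : ℕ → X := fun k => if k = 0 then a else if k = 1 then b else if k = 2 then c else
    if k = 3 then d else e
  simp only [List.nodup_cons, List.mem_cons, List.not_mem_nil, or_false, not_or,
        List.nodup_nil, and_true, not_false_eq_true] at hn
  obtain ⟨⟨h1, h2, h3, h4⟩, ⟨h5, h6, h7'⟩, ⟨h8, h9⟩, h10⟩ := hn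
  have hinj : Set.InjOn w (Set.Iio 5) := by
    intro i hi j hj hij
    simp only [Set.mem_Iio] at hi hj
    interval_cases i <;> interval_cases j <;> simp [w] at hij ⊢ <;>
      first | exact absurd hij (by assumption) | exact absurd hij.symm (by assumption)
  have := hJ X G w hG hinj (hF X G hG h7 w hinj) 0 1 2 3 4 (by norm_num) (by norm_num)
    (by norm_num) (by norm_num) (by norm_num) (by decide)
  simpa [w] using this

end Pool.Agent.L0h82.GT
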